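import Mathlib
import Pool.Agent.H33.LsfDefs
import Pool.Agent.H33.Lsf2

open Module Matrix Pool.Agent.H33.Lsf

namespace Pool.Agent.Results.MP_7f7a01_al.Q1

universe u
variable {K : Type u} [Field K]

theorem regular {G : Type} [CommGroup G] [Fintype G] (h2 : ∀ g : G, g * g = 1) :
    Approx K G (1 / 4) := by
  classical
  intro F δ hδ
  let R : G →* Matrix G G K :=
    { toFun := fun g => Matrix.of fun i j => if i = g * j then 1 else 0
      map_one' := by ext i j; simp [one_apply]
      map_mul' := fun g h => by ext i j; simp [Matrix.mul_apply, mul_assoc] }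
  let e := Fintype.equivFin G
  let Q : G →* Matrix (Fin (Fintype.card G)) (Fin (Fintype.card G)) K :=
    (reindexAlgEquiv K K e).toMonoidHom.comp R
  have hQ : ∀ A B, (Q A - Q B).rank = (R A - R B).rank := fun A B => by
    rw [← rank_reindex e e (R A - R B)]; rfl
  refine ⟨_, Q.toHomUnits, fun g _ h _ => ?_, fun g _ h _ hne => ?_⟩
  · rw [← map_mul]; simpa [dRank] using hδ
  · simp only [dRank, MonoidHom.coe_toHomUnits, hQ]
    let lo : LinearOrder G := LinearOrder.lift' e e.injective
    set a := g * h with ha
    have ha1 : ∀ i, a * i ≠ i := fun i hi => hne (by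
      have h1 : g * h = 1 := by simpa using hi
      calc g = g * (h * h) := by rw [h2, mul_one]
        _ = h := by rw [← mul_assoc, h1, one_mul])
    have ha2 : ∀ i, a * (a * i) = i := fun i => by rw [← mul_assoc, h2, one_mul]
    let T : Finset G := Finset.univ.filter fun i => i < a * i
    have hT : 2 * T.card ≤ Fintype.card G := by
      have h1 : T.card ≤ Tᶜ.card := Finset.card_le_card_of_injOn (fun i => a * i) (fun i hi => by
        simp only [T, Finset.coe_filter, Finset.mem_univ, true_and, Set.mem_ofPred_eq,
          Finset.coe_compl, Set.mem_compl_iff, ha2] at hi ⊢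
        exact not_lt.mpr hi.le) (fun i _ j _ hij => mul_left_cancel hij)
      have := Finset.card_add_card_compl T
      omega
    have hmv : ∀ (c : G) (x : G → K) (i : G), (R c *ᵥ x) (c * i) = x i := fun c x i => by
      simp [R, mulVec, dotProduct]
    let r : LinearMap.ker (R g - R h).mulVecLin →ₗ[K] (T → K) :=
      (LinearMap.funLeft K K Subtype.val).comp (Submodule.subtype _)
    have hr : Function.Injective r := by
      rw [← LinearMap.ker_eq_bot, LinearMap.ker_eq_bot']
      rintro ⟨x, hx⟩ h0
      have hx' : ∀ i, x (a * i) = x i := fun i => by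
        have h1 := congrFun (show (R g - R h) *ᵥ x = 0 from hx) (g * i)
        rw [sub_mulVec, Pi.sub_apply, hmv, show g * i = h * (a * i) by
          rw [ha, mul_comm g h, ← mul_assoc, ← mul_assoc, h2, one_mul], hmv] at h1
        exact (sub_eq_zero.mp h1).symm
      have h1 : ∀ i ∈ T, x i = 0 := fun i hi => congrFun h0 ⟨i, hi⟩
      apply Subtype.ext
      funext i
      show x i = 0
      rcases lt_or_gt_of_ne (ha1 i) with hi | hi
      · rw [← hx' i]
        exact h1 _ (by simpa [T, ha2] using hi)
      · exact h1 _ (by simpa [T] using hi)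
    have h3 := LinearMap.finrank_le_finrank_of_injective hr
    have h4 := rank_ker (R g - R h)
    simp only [finrank_fintype_fun_eq_card, Fintype.card_coe] at h3
    have hn : (0 : ℝ) < Fintype.card G := by exact_mod_cast Fintype.card_pos
    have h5 : (Fintype.card G : ℝ) ≤ 2 * (R g - R h).rank := by
      exact_mod_cast (show Fintype.card G ≤ 2 * (R g - R h).rank by omega)
    rw [lt_div_iff₀ hn]
    nlinarith

theorem exact_rep {G : Type} [CommGroup G] [Fintype G] [DecidableEq G] (h2 : ∀ g : G, g * g = 1)
    {V : Type u} [AddCommGroup V] [Module K V] [FiniteDimensional K V] (f : G → V →ₗ[K] V)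
    (W : Submodule K V) (hW : ∀ a, ∀ w ∈ W, f a w ∈ W)
    (hmul : ∀ a b, ∀ w ∈ W, f a (f b w) = f (a * b) w) (hone : ∀ w ∈ W, f 1 w = w) :
    Fintype.card G * finrank K W ≤
      2 * ∑ a ∈ Finset.univ.erase 1, finrank K (LinearMap.ker (f a - f 1)) + 2 * finrank K W := by
  classical
  by_cases hc : (2 : K) = 0
  · have key : ∀ a, finrank K W ≤ 2 * finrank K (LinearMap.ker (f a - f 1)) := by
      intro a
      let g : W →ₗ[K] V := (f a - f 1).comp W.subtype
      have e1 := g.finrank_range_add_finrank_ker
      have e2 : finrank K (LinearMap.range g) ≤ finrank K (LinearMap.ker (f a - f 1)) := by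
        apply Submodule.finrank_mono
        rintro _ ⟨⟨w, hw⟩, rfl⟩
        simp only [g, LinearMap.mem_ker, LinearMap.comp_apply, LinearMap.sub_apply,
          Submodule.subtype_apply, map_sub, hone w hw, hmul _ _ w hw, h2, one_mul]
        have : w - f a w - (f a w - w) = (2 : K) • (w - f a w) := by rw [two_smul]; abel
        rw [this, hc, zero_smul]
      have e3 : (LinearMap.ker g).map W.subtype ≤ LinearMap.ker (f a - f 1) := by
        rintro _ ⟨x, hx, rfl⟩; exact hx
      have e4 := Submodule.finrank_mono e3
      rw [Submodule.finrank_map_subtype_eq] at e4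
      omega
    have h1 := Finset.sum_le_sum fun a (_ : a ∈ Finset.univ.erase (1 : G)) => key a
    rw [Finset.sum_const, Finset.card_erase_of_mem (Finset.mem_univ _), Finset.card_univ,
      ← Finset.mul_sum, smul_eq_mul] at h1
    obtain ⟨m, hm⟩ := Nat.exists_eq_add_of_le' (show 1 ≤ Fintype.card G from Fintype.card_pos)
    rw [hm] at h1 ⊢
    simp only [Nat.add_sub_cancel] at h1
    nlinarith
  · have span : ∀ T : Finset G, W ≤ Submodule.span K
        {w | w ∈ W ∧ ∀ a ∈ T, f a w = w ∨ f a w = -w} := by
      intro T
      induction T using Finset.induction_on with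
      | empty => exact fun w hw => Submodule.subset_span ⟨hw, by simp⟩
      | insert a T _ ih =>
        refine ih.trans (Submodule.span_le.mpr ?_)
        rintro w ⟨hw, hw2⟩
        have e : w = (2 : K)⁻¹ • ((w + f a w) + (w - f a w)) := by
          rw [show (w + f a w) + (w - f a w) = (2 : K) • w by rw [two_smul]; abel, smul_smul,
            inv_mul_cancel₀ hc, one_smul]
        have hcomm : ∀ b, f b (f a w) = f a (f b w) := fun b => by
          rw [hmul _ _ w hw, hmul _ _ w hw, mul_comm]
        have haa : f a (f a w) = w := by rw [hmul _ _ w hw, h2, hone w hw]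
        rw [SetLike.mem_coe, e]
        refine Submodule.smul_mem _ _ (Submodule.add_mem _ (Submodule.subset_span ⟨?_, ?_⟩)
          (Submodule.subset_span ⟨?_, ?_⟩))
        · exact W.add_mem hw (hW a w hw)
        · intro b hb
          rcases Finset.mem_insert.mp hb with rfl | hb
          · left; rw [map_add, haa, add_comm]
          · rcases hw2 b hb with h | h
            · left; rw [map_add, hcomm, h]
            · right; rw [map_add, hcomm, h, map_neg]; abel
        · exact W.sub_mem hw (hW a w hw)
        · intro b hb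
          rcases Finset.mem_insert.mp hb with rfl | hb
          · right; rw [map_sub, haa]; abel
          · rcases hw2 b hb with h | h
            · left; rw [map_sub, hcomm, h]
            · right; rw [map_sub, hcomm, h, map_neg]; abel
    obtain ⟨B, hB1, hB2, hB3⟩ := exists_linearIndependent K
      {w | w ∈ W ∧ ∀ a ∈ (Finset.univ : Finset G), f a w = w ∨ f a w = -w}
    have hfin : B.Finite := hB3.set_finite_of_isNoetherian
    lift B to Finset V using hfin
    have hcard : B.card = finrank K W := by
      have e : Submodule.span K (B : Set V) = W :=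
        le_antisymm (Submodule.span_le.mpr fun w hw => (hB1 hw).1) (hB2 ▸ span Finset.univ)
      rw [← e]
      exact (finrank_span_finset_eq_card hB3).symm
    have h1 : ∀ a, (B.filter fun b => f a b = b).card ≤ finrank K (LinearMap.ker (f a - f 1)) := by
      intro a
      have hli : LinearIndepOn K id ((B.filter fun b => f a b = b : Finset V) : Set V) :=
        LinearIndepOn.mono (s := (B : Set V)) hB3 (Finset.coe_subset.mpr (Finset.filter_subset _ _))
      rw [← finrank_span_finset_eq_card hli]
      apply Submodule.finrank_mono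
      rw [Submodule.span_le]
      intro b hb
      obtain ⟨hb1, hb2⟩ := Finset.mem_filter.mp hb
      simp [hb2, hone b (hB1 hb1).1]
    have h3 : ∀ b ∈ B, Fintype.card G ≤ 2 * (Finset.univ.filter fun a => f a b = b).card := by
      intro b hb
      obtain ⟨hbW, hb2⟩ := hB1 hb
      have e := Finset.card_filter_add_card_filter_not (s := Finset.univ) (fun a => f a b = b)
      rw [Finset.card_univ] at e
      rcases (Finset.univ.filter fun a => ¬ f a b = b).eq_empty_or_nonempty with h0 | ⟨c, hc'⟩
      · rw [h0] at e; simp at e; omega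
      have hc2 := (hb2 c (Finset.mem_univ _)).resolve_left (Finset.mem_filter.mp hc').2
      have := Finset.card_le_card_of_injOn (s := Finset.univ.filter fun a => ¬ f a b = b)
        (t := Finset.univ.filter fun a => f a b = b) (fun a => c * a) (fun a ha => by
          have ha2 := (hb2 a (Finset.mem_univ _)).resolve_left (Finset.mem_filter.mp ha).2
          simp only [Finset.coe_filter, Finset.mem_univ, true_and, Set.mem_ofPred_eq]
          rw [← hmul _ _ b hbW, ha2, map_neg, hc2, neg_neg])
        (fun i _ j _ hij => mul_left_cancel hij)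
      omega
    have h4 := Finset.sum_le_sum h3
    rw [Finset.sum_const, smul_eq_mul, ← Finset.mul_sum] at h4
    have h5 : ∑ b ∈ B, (Finset.univ.filter fun a => f a b = b).card =
        ∑ a, (B.filter fun b => f a b = b).card := by
      simp only [Finset.card_filter]
      exact Finset.sum_comm
    rw [h5, ← Finset.add_sum_erase _ _ (Finset.mem_univ 1)] at h4
    have h6 := Finset.sum_le_sum fun a (_ : a ∈ Finset.univ.erase (1 : G)) => h1 a
    have h7 := Finset.card_filter_le B fun b => f 1 b = b
    rw [hcard] at h4 h7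
    nlinarith

theorem inf_ker {ι : Type} {n : ℕ} (M : ι → Matrix (Fin n) (Fin n) K) (s : Finset ι) :
    ∃ W : Submodule K (Fin n → K), (∀ i ∈ s, ∀ w ∈ W, M i *ᵥ w = 0) ∧
      n ≤ finrank K W + ∑ i ∈ s, (M i).rank := by
  classical
  induction s using Finset.induction_on with
  | empty => exact ⟨⊤, by simp, by simp⟩
  | insert i s hi ih =>
    obtain ⟨W, h1, h2⟩ := ih
    refine ⟨W ⊓ LinearMap.ker (M i).mulVecLin, fun j hj w hw => ?_, ?_⟩
    · rcases Finset.mem_insert.mp hj with rfl | hj
      · exact hw.2
      · exact h1 j hj w hw.1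
    · have e1 := Submodule.finrank_sup_add_finrank_inf_eq W (LinearMap.ker (M i).mulVecLin)
      have e2 := rank_ker (M i)
      have e3 := Submodule.finrank_le (W ⊔ LinearMap.ker (M i).mulVecLin)
      simp only [finrank_fintype_fun_eq_card, Fintype.card_fin] at e2 e3
      rw [Finset.sum_insert hi]
      omega

theorem not_approx {G : Type} [CommGroup G] [Fintype G] (h2 : ∀ g : G, g * g = 1) (η : ℝ)
    (hN : 2 ≤ Fintype.card G) (hη : 1 < η * (Fintype.card G - 1)) :
    ¬ Approx K G (1 / 2 + η) := by
  classical
  intro h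
  set N : ℝ := (Fintype.card G : ℝ) with hNdef
  have hN' : (2 : ℝ) ≤ N := by rw [hNdef]; exact_mod_cast hN
  obtain ⟨n, φ, h1, h3⟩ := h Finset.univ (1 / (4 * N ^ 3)) (by positivity)
  set δ := 1 / (4 * N ^ 3) with hδ
  have hδ0 : 0 < δ := by positivity
  have hδ1 : N ^ 3 * δ = 1 / 4 := by rw [hδ]; field_simp
  have hη0 : 0 < η := by by_contra hh; nlinarith
  have hδ2 : N * δ ≤ 1 / 4 := by
    rw [← hδ1]; apply mul_le_mul_of_nonneg_right _ hδ0.le
    exact le_self_pow₀ (by linarith) (by norm_num)
  have : Nontrivial G := Fintype.one_lt_card_iff_nontrivial.mp hN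
  have hn : 0 < n := by
    obtain ⟨a, ha⟩ := exists_ne (1 : G)
    have := h3 a (Finset.mem_univ _) 1 (Finset.mem_univ _) ha
    rcases Nat.eq_zero_or_pos n with rfl | hn
    · simp only [dRank, Nat.cast_zero, div_zero] at this
      nlinarith
    · exact hn
  have hn' : (0 : ℝ) < n := by exact_mod_cast hn
  let f : G → (Fin n → K) →ₗ[K] (Fin n → K) := fun g => (φ g).val.mulVecLin
  obtain ⟨W0, w1, w2⟩ := inf_ker (fun p : G × G => (φ p.1 * φ p.2).val - (φ (p.1 * p.2)).val)
    Finset.univ
  have w3 : ∀ a b, ∀ v ∈ W0, f a (f b v) = f (a * b) v := fun a b v hv => by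
    have := w1 (a, b) (Finset.mem_univ _) v hv
    rw [sub_mulVec, sub_eq_zero, Units.val_mul, ← mulVec_mulVec] at this
    exact this
  let W : Submodule K (Fin n → K) := Submodule.span K {w | ∃ g, ∃ v ∈ W0, w = f g v}
  have hW : ∀ a, ∀ w ∈ W, f a w ∈ W := fun a w hw => by
    induction hw using Submodule.span_induction with
    | mem x hx =>
      obtain ⟨g, v, hv, rfl⟩ := hx
      exact Submodule.subset_span ⟨a * g, v, hv, w3 _ _ v hv⟩
    | zero => simp
    | add x y _ _ hx hy => rw [map_add]; exact W.add_mem hx hy
    | smul c x _ hx => rw [map_smul]; exact W.smul_mem c hx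
  have hmul : ∀ a b, ∀ w ∈ W, f a (f b w) = f (a * b) w := fun a b w hw => by
    induction hw using Submodule.span_induction with
    | mem x hx =>
      obtain ⟨g, v, hv, rfl⟩ := hx
      rw [w3 _ _ v hv, w3 _ _ v hv, w3 _ _ v hv, mul_assoc]
    | zero => simp
    | add x y _ _ hx hy => simp only [map_add, hx, hy]
    | smul c x _ hx => simp only [map_smul, hx]
  have hone : ∀ w ∈ W, f 1 w = w := fun w hw => by
    induction hw using Submodule.span_induction with
    | mem x hx =>
      obtain ⟨g, v, hv, rfl⟩ := hx
      rw [w3 _ _ v hv, one_mul]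
    | zero => simp
    | add x y _ _ hx hy => simp only [map_add, hx, hy]
    | smul c x _ hx => simp only [map_smul, hx]
  have k1 := exact_rep h2 f W hW hmul hone
  have k2 : finrank K W0 ≤ finrank K W := by
    have hinj : Function.Injective (f 1) :=
      mulVec_injective_of_det_mem_nonZeroDivisors
        ((isUnit_iff_isUnit_det _).mp (φ 1).isUnit).mem_nonZeroDivisors
    rw [(Submodule.equivMapOfInjective _ hinj W0).finrank_eq]
    apply Submodule.finrank_mono
    rintro _ ⟨v, hv, rfl⟩
    exact Submodule.subset_span ⟨1, v, hv, rfl⟩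
  have k3 : (n : ℝ) ≤ finrank K W + N * N * (δ * n) := by
    have a1 : (n : ℝ) ≤ finrank K W0 +
        ∑ p : G × G, (((φ p.1 * φ p.2).val - (φ (p.1 * p.2)).val).rank : ℝ) := by exact_mod_cast w2
    have a2 : ∑ p : G × G, (((φ p.1 * φ p.2).val - (φ (p.1 * p.2)).val).rank : ℝ) ≤
        ∑ _p : G × G, δ * n := Finset.sum_le_sum fun p _ => by
      have := h1 p.1 (Finset.mem_univ _) p.2 (Finset.mem_univ _)
      rw [dRank, div_lt_iff₀ hn'] at this
      exact this.le
    rw [Finset.sum_const, Finset.card_univ, Fintype.card_prod, nsmul_eq_mul] at a2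
    have a3 : (finrank K W0 : ℝ) ≤ finrank K W := by exact_mod_cast k2
    rw [Nat.cast_mul] at a2
    linarith
  have k4 : (∑ a ∈ Finset.univ.erase 1, (finrank K (LinearMap.ker (f a - f 1)) : ℝ)) ≤
      ∑ _a ∈ Finset.univ.erase (1 : G), (1 / 2 - η + δ) * n := Finset.sum_le_sum fun a ha => by
    have a1 := h3 a (Finset.mem_univ _) 1 (Finset.mem_univ _) (Finset.mem_erase.mp ha).1
    rw [dRank, lt_div_iff₀ hn'] at a1
    have a2 := rank_ker ((φ a).val - (φ 1).val)
    rw [Fintype.card_fin] at a2
    have a3 : f a - f 1 = ((φ a).val - (φ 1).val).mulVecLin := by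
      ext x i; simp [f]
    have a4 : (((φ a).val - (φ 1).val).rank : ℝ) +
      finrank K (LinearMap.ker ((φ a).val - (φ 1).val).mulVecLin) = n := by exact_mod_cast a2
    rw [a3]
    linarith
  rw [Finset.sum_const, Finset.card_erase_of_mem (Finset.mem_univ _), Finset.card_univ,
    nsmul_eq_mul, Nat.cast_sub (by omega), Nat.cast_one] at k4
  have k5 : N * finrank K W ≤
      2 * (∑ a ∈ Finset.univ.erase 1, (finrank K (LinearMap.ker (f a - f 1)) : ℝ)) +
        2 * finrank K W := by rw [hNdef]; exact_mod_cast k1
  have k6 : (N - 2) * (n - N * N * (δ * n)) ≤ (N - 2) * finrank K W :=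
    mul_le_mul_of_nonneg_left (by linarith) (by linarith)
  have k7 : (N - 2) * (1 - N * N * δ) ≤ 2 * ((N - 1) * (1 / 2 - η + δ)) := by
    refine le_of_mul_le_mul_right ?_ hn'
    nlinarith
  have k8 : 0 ≤ N * N * δ := by positivity
  nlinarith

theorem result (K : Type u) [Field K] (ε : ℝ) (hε : 1 / 4 < ε) :
    (∀ (G : Type) [Group G] [Countable G], Approx K G ε ↔ Approx K G (1 / 4)) ↔ ε ≤ 1 / 2 := by
  constructor
  · intro h
    by_contra hlt
    push Not at hlt
    obtain ⟨k, hk⟩ := exists_nat_gt (1 / (ε - 1 / 2))
    let G := Multiplicative (Fin (k + 1) → ZMod 2)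
    have h2 : ∀ g : G, g * g = 1 := fun g => by
      apply Multiplicative.toAdd.injective
      funext i
      exact CharTwo.add_self_eq_zero _
    have hc : Fintype.card G = 2 ^ (k + 1) := by simp [G]
    have h3 : k + 1 < 2 ^ (k + 1) := Nat.lt_two_pow_self
    refine not_approx (K := K) h2 (ε - 1 / 2) (by omega) ?_ ?_
    · rw [div_lt_iff₀ (by linarith)] at hk
      have : (k : ℝ) ≤ Fintype.card G - 1 := by
        have : k + 1 ≤ Fintype.card G := by omega
        have : (k : ℝ) + 1 ≤ Fintype.card G := by exact_mod_cast this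
        linarith
      nlinarith
    · rw [add_sub_cancel]
      exact (h G).mpr (regular h2)
  · intro h G _ _
    exact ⟨approx_mono hε.le, fun h' => approx_mono h (approx_half h')⟩

end Pool.Agent.Results.MP_7f7a01_al.Q1
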